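import Pool.Agent.R161.Bohr.Basic

/-!
BO-BETA: convolution with a Bohr kernel (`S_beta`).
-/

set_option autoImplicit false

namespace Pool.Agent.R310.Bohr

open Finset Filter Topology
open scoped ComplexConjugate
open Pool.Agent.R161.Bohr

universe u

theorem par (z : Circle) : ‖(1 : ℂ) + z‖ ^ 2 = 4 - ‖(z : ℂ) - 1‖ ^ 2 := by
  have h1 : ‖(z : ℂ)‖ = 1 := Circle.norm_coe z
  have h2 := parallelogram_law_with_norm ℝ (1 : ℂ) (z : ℂ)
  rw [norm_sub_rev, h1, norm_one] at h2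
  nlinarith

theorem kp_eq (p : ℕ) (z : Circle) : kp p z = (1 - ‖(z : ℂ) - 1‖ ^ 2 / 4) ^ p := by
  rw [kp, par]
  congr 1
  ring

theorem dist_le_two (z : Circle) : ‖(z : ℂ) - 1‖ ≤ 2 := by
  have h := norm_sub_le (z : ℂ) 1
  rw [Circle.norm_coe, norm_one] at h
  linarith

theorem kp_nonneg (p : ℕ) (z : Circle) : 0 ≤ kp p z := by
  unfold kp
  positivity

theorem kp_le_one (p : ℕ) (z : Circle) : kp p z ≤ 1 := by
  rw [kp_eq]
  have h1 := dist_le_two z
  have h2 := norm_nonneg ((z : ℂ) - 1)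
  exact pow_le_one₀ (by nlinarith) (by nlinarith)

theorem kp_le {p : ℕ} {z : Circle} {η : ℝ} (h0 : 0 ≤ η) (h : η ≤ ‖(z : ℂ) - 1‖) :
    kp p z ≤ (1 - η ^ 2 / 4) ^ p := by
  rw [kp_eq]
  have h1 := dist_le_two z
  exact pow_le_pow_left₀ (by nlinarith) (by nlinarith) p

theorem choose_p (κ : ℝ) (h0 : 0 < κ) (h1 : κ ≤ 1) (K : ℕ) :
    ∃ p : ℕ, 2 * (1 - κ ^ 2 / 16) ^ p * (2 * (p : ℝ) + 1) ^ K ≤ κ / 2 := by
  have hr : |1 - κ ^ 2 / 16| < 1 := by
    rw [abs_lt]
    constructor <;> nlinarith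
  have hr0 : 0 ≤ 1 - κ ^ 2 / 16 := by nlinarith
  have t := tendsto_pow_const_mul_const_pow_of_abs_lt_one K hr
  have h3 : (0 : ℝ) < κ / (4 * 3 ^ K) := by positivity
  obtain ⟨p, hp1, hp2⟩ := ((t.eventually (gt_mem_nhds h3)).and (eventually_ge_atTop 1)).exists
  refine ⟨p, ?_⟩
  have hp2' : (1 : ℝ) ≤ p := by exact_mod_cast hp2
  have h4 : (2 * (p : ℝ) + 1) ^ K ≤ (3 * (p : ℝ)) ^ K :=
    pow_le_pow_left₀ (by positivity) (by linarith) K
  have h5 : (0 : ℝ) ≤ (1 - κ ^ 2 / 16) ^ p := pow_nonneg hr0 p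
  calc 2 * (1 - κ ^ 2 / 16) ^ p * (2 * (p : ℝ) + 1) ^ K
      ≤ 2 * (1 - κ ^ 2 / 16) ^ p * (3 * (p : ℝ)) ^ K :=
        mul_le_mul_of_nonneg_left h4 (by positivity)
    _ = 2 * 3 ^ K * ((p : ℝ) ^ K * (1 - κ ^ 2 / 16) ^ p) := by
        rw [mul_pow]
        ring
    _ ≤ 2 * 3 ^ K * (κ / (4 * 3 ^ K)) := mul_le_mul_of_nonneg_left hp1.le (by positivity)
    _ = κ / 2 := by
        field_simp
        ring

theorem s_beta (hk : S_ker.{u}) : S_beta.{u} := by
  intro κ hκ K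
  set κ' := min κ 1 with hκ'
  have hκ0 : 0 < κ' := lt_min hκ one_pos
  have hκ1 : κ' ≤ 1 := min_le_right _ _
  have hκκ : κ' ≤ κ := min_le_left _ _
  obtain ⟨p, hp⟩ := choose_p κ' hκ0 hκ1 K
  refine ⟨(2 * p + 1) ^ K, ?_⟩
  intro G _ m hm Λ hΛ f hf
  classical
  obtain ⟨R, _, v, θ, r0, hv0, hv1, hθ, hvr, hR, hker⟩ := hk G {ξ // ξ ∈ Λ} (fun ξ => ξ.1) p
  rw [Fintype.card_coe] at hvr hR
  set V : G → ℝ := fun x => ∏ i : {ξ // ξ ∈ Λ}, kp p (i.1 x) with hVdef
  have hV : ∀ x, (V x : ℂ) = ∑ r, (v r : ℂ) * (θ r x : ℂ) := hker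
  have hV0 : ∀ x, 0 ≤ V x := fun x => Finset.prod_nonneg fun i _ => kp_nonneg _ _
  have hV1 : ∀ x, V x ≤ 1 := fun x =>
    Finset.prod_le_one (fun i _ => kp_nonneg _ _) (fun i _ => kp_le_one _ _)
  have hVb : BddR V := BddR.of_mem fun x => ⟨hV0 x, hV1 x⟩
  have hVξ : ∀ ξ ∈ Λ, ∀ x, V x ≤ kp p (ξ x) := by
    intro ξ hξ x
    rw [hVdef]
    beta_reduce
    rw [← Finset.mul_prod_erase univ (fun i : {ξ // ξ ∈ Λ} => kp p (i.1 x)) (mem_univ ⟨ξ, hξ⟩)]
    exact mul_le_of_le_one_right (kp_nonneg _ _)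
      (Finset.prod_le_one (fun i _ => kp_nonneg _ _) (fun i _ => kp_le_one _ _))
  -- coefficients
  set B : AddChar G Circle → ℝ := fun ξ => ∑ r, if θ r = ξ then v r else 0 with hBdef
  have hB0 : ∀ ξ, 0 ≤ B ξ := fun ξ => Finset.sum_nonneg fun r _ => by
    split_ifs
    · exact hv0 r
    · exact le_rfl
  have hB : ∀ ξ, coef m (fun x => (V x : ℂ)) ξ = B ξ := by
    intro ξ
    have e : (fun x => (V x : ℂ)) = fun x => ∑ r, (v r : ℂ) * (θ r x : ℂ) := funext hV
    rw [e, coef_sum univ fun r _ => (Bdd.char (θ r)).cmul _]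
    rw [hBdef]
    push_cast
    refine Finset.sum_congr rfl fun r _ => ?_
    rw [coef_cmul _ (Bdd.char _), coef_char hm]
    split_ifs <;> simp
  have hmV : m.re V = B 1 := by
    have h1 := hB 1
    rw [coef_one, m.ofReal hVb] at h1
    exact_mod_cast h1
  have hB1 : ∀ ξ, B ξ ≤ B 1 := by
    intro ξ
    have h1 := norm_coef_le (m := m) hVb.ofReal ξ
    rw [hB, Complex.norm_real, Real.norm_of_nonneg (hB0 ξ)] at h1
    have e : (fun x => ‖(V x : ℂ)‖) = V := by
      funext x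
      rw [Complex.norm_real, Real.norm_of_nonneg (hV0 x)]
    rw [e, hmV] at h1
    exact h1
  have hc0 : (1 / (2 * (p : ℝ) + 1)) ^ K ≤ B 1 := by
    have h1 : v r0 ≤ B 1 := by
      have := Finset.single_le_sum (f := fun r => if θ r = 1 then v r else 0)
        (fun r _ => by
          beta_reduce
          split_ifs
          · exact hv0 r
          · exact le_rfl) (mem_univ r0)
      beta_reduce at this
      rw [if_pos hθ] at this
      exact this
    refine le_trans (le_trans ?_ hvr) h1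
    exact pow_le_pow_of_le_one (by positivity) (by
      rw [div_le_one (by positivity)]
      linarith [(Nat.cast_nonneg p : (0 : ℝ) ≤ p)]) hΛ
  have hpos : 0 < B 1 := lt_of_lt_of_le (by positivity) hc0
  -- grouping the representation by characters
  have grp : ∀ F : AddChar G Circle → ℂ,
      ∑ ξ ∈ univ.image θ, (B ξ : ℂ) * F ξ = ∑ r, (v r : ℂ) * F (θ r) := by
    intro F
    have h1 : ∀ ξ, (B ξ : ℂ) * F ξ = ∑ r, if θ r = ξ then (v r : ℂ) * F ξ else 0 := by
      intro ξ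
      rw [hBdef]
      push_cast
      rw [Finset.sum_mul]
      refine Finset.sum_congr rfl fun r _ => ?_
      split_ifs <;> simp
    simp_rw [h1]
    rw [Finset.sum_comm]
    refine Finset.sum_congr rfl fun r _ => ?_
    rw [Finset.sum_ite_eq, if_pos (Finset.mem_image_of_mem _ (mem_univ r))]
  have conv : ∀ g : G → ℝ, BddR g → ∀ x,
      ((m.re fun t => g t * V (x - t) : ℝ) : ℂ) =
        ∑ r, (v r : ℂ) * (coef m (fun y => (g y : ℂ)) (θ r) * (θ r x : ℂ)) := by
    intro g hg x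
    have hgV : BddR fun t => g t * V (x - t) := hg.mul (hVb.comp fun t => x - t)
    rw [← m.ofReal hgV]
    have e : (fun t => ((g t * V (x - t) : ℝ) : ℂ)) = fun t => ∑ r, (v r : ℂ) * (θ r x : ℂ) *
        ((g t : ℂ) * conj (θ r t : ℂ)) := by
      funext t
      push_cast
      rw [hV, Finset.mul_sum]
      refine Finset.sum_congr rfl fun r _ => ?_
      have h2 : (θ r (x - t) : ℂ) = (θ r x : ℂ) * conj (θ r t : ℂ) := by
        rw [sub_eq_add_neg, char_add, conj_char, AddChar.inv_apply]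
      rw [h2]
      ring
    rw [e, m.map_sum univ fun r _ => (hg.ofReal.mul (Bdd.char_conj (θ r))).cmul _]
    refine Finset.sum_congr rfl fun r _ => ?_
    rw [m.map_cmul _ (hg.ofReal.mul (Bdd.char_conj (θ r)))]
    change _ * coef m (fun y => (g y : ℂ)) (θ r) = _
    ring
  have one : ∀ x, (m.re fun t => V (x - t)) = B 1 := by
    intro x
    have h1 := conv (fun _ => 1) (BddR.const 1) x
    have h2 : ∀ r, coef m (fun _ => ((1 : ℝ) : ℂ)) (θ r) = if θ r = 1 then 1 else 0 := by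
      intro r
      have h3 := coef_char hm 1 (θ r)
      have e : (fun x : G => (((1 : AddChar G Circle) x : Circle) : ℂ)) = fun _ => ((1 : ℝ) : ℂ) := by
        funext x
        simp
      rw [e] at h3
      rw [h3]
      simp only [eq_comm]
    simp only [h2, one_mul] at h1
    have h4 : ∑ r, (v r : ℂ) * ((if θ r = 1 then (1 : ℂ) else 0) * (θ r x : ℂ)) = (B 1 : ℂ) := by
      rw [hBdef]
      push_cast
      refine Finset.sum_congr rfl fun r _ => ?_
      by_cases h : θ r = 1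
      · simp [h]
      · simp [h]
    rw [h4] at h1
    exact_mod_cast h1
  have hfb : BddR f := BddR.of_mem hf
  refine ⟨fun x => (m.re fun t => f t * V (x - t)) / B 1, univ.image θ, fun ξ => B ξ / B 1,
    ?_, ?_, ?_, ?_, ?_, ?_, ?_, ?_⟩
  · refine Finset.card_image_le.trans ?_
    rw [Finset.card_univ]
    exact hR.trans (Nat.pow_le_pow_right (by omega) hΛ)
  · rw [← hθ]
    exact Finset.mem_image_of_mem _ (mem_univ r0)
  · exact div_self hpos.ne'
  · intro ξ
    exact ⟨div_nonneg (hB0 ξ) hpos.le, (div_le_one hpos).2 (hB1 ξ)⟩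
  · intro ξ hξ
    have : B ξ = 0 := by
      rw [hBdef]
      refine Finset.sum_eq_zero fun r _ => ?_
      refine if_neg fun h : θ r = ξ => hξ ?_
      rw [← h]
      exact Finset.mem_image_of_mem _ (mem_univ r)
    beta_reduce
    rw [this, zero_div]
  · intro ξ hξ
    -- the main estimate
    have h1 : ((B 1 - B ξ : ℝ) : ℂ) = m (fun x => (V x : ℂ) * (1 - conj (ξ x : ℂ))) := by
      have e : (fun x => (V x : ℂ) * (1 - conj (ξ x : ℂ))) = fun x =>
          (V x : ℂ) - (V x : ℂ) * conj (ξ x : ℂ) := by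
        funext x
        ring
      rw [e, m.map_sub hVb.ofReal (hVb.ofReal.mul (Bdd.char_conj ξ)), m.ofReal hVb, hmV]
      change _ = _ - coef m (fun x => (V x : ℂ)) ξ
      rw [hB]
      push_cast
      ring
    have hbd : Bdd (fun x => (V x : ℂ) * (1 - conj (ξ x : ℂ))) :=
      hVb.ofReal.mul ((Bdd.const 1).sub (Bdd.char_conj ξ))
    have h2 := m.norm_le hbd
    rw [← h1, Complex.norm_real] at h2
    have h3 : (m.re fun x => ‖(V x : ℂ) * (1 - conj (ξ x : ℂ))‖) ≤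
        m.re fun x => κ' / 2 * V x + 2 * (1 - κ' ^ 2 / 16) ^ p := by
      refine m.re_mono hbd.norm ((hVb.cmul _).add (BddR.const _)) fun x => ?_
      have e1 : ‖(1 : ℂ) - conj (ξ x : ℂ)‖ = ‖(ξ x : ℂ) - 1‖ := by
        have : (1 : ℂ) - conj (ξ x : ℂ) = conj (1 - (ξ x : ℂ)) := by simp
        rw [this, RCLike.norm_conj, norm_sub_rev]
      rw [norm_mul, Complex.norm_real, Real.norm_of_nonneg (hV0 x), e1]
      have hr0 : (0 : ℝ) ≤ (1 - κ' ^ 2 / 16) ^ p := pow_nonneg (by nlinarith) p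
      rcases lt_or_ge ‖(ξ x : ℂ) - 1‖ (κ' / 2) with h4 | h4
      · have := mul_le_mul_of_nonneg_left h4.le (hV0 x)
        linarith
      · have h5 := (hVξ ξ hξ x).trans (kp_le (p := p) (by positivity) h4)
        have e2 : (1 - (κ' / 2) ^ 2 / 4) ^ p = (1 - κ' ^ 2 / 16) ^ p := by
          congr 1
          ring
        rw [e2] at h5
        have h6 := dist_le_two (ξ x)
        have h7 : V x * ‖(ξ x : ℂ) - 1‖ ≤ (1 - κ' ^ 2 / 16) ^ p * 2 :=
          mul_le_mul h5 h6 (norm_nonneg _) hr0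
        have h8 : 0 ≤ κ' / 2 * V x := mul_nonneg (by positivity) (hV0 x)
        linarith
    have h4 : (m.re fun x => κ' / 2 * V x + 2 * (1 - κ' ^ 2 / 16) ^ p) =
        κ' / 2 * B 1 + 2 * (1 - κ' ^ 2 / 16) ^ p := by
      rw [m.re_add (hVb.cmul _) (BddR.const _), m.re_cmul _ hVb, m.re_const, hmV]
    rw [h4] at h3
    have h5 : B 1 - B ξ ≤ κ' / 2 * B 1 + 2 * (1 - κ' ^ 2 / 16) ^ p :=
      (le_abs_self _).trans (h2.trans h3)
    -- the last term
    have h6 : 2 * (1 - κ' ^ 2 / 16) ^ p ≤ κ' / 2 * B 1 := by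
      have hq : (0 : ℝ) < (2 * (p : ℝ) + 1) ^ K := by positivity
      have h7 : 2 * (1 - κ' ^ 2 / 16) ^ p ≤ κ' / 2 * (1 / (2 * (p : ℝ) + 1)) ^ K := by
        rw [one_div, inv_pow, ← div_eq_mul_inv, le_div_iff₀ hq]
        exact hp
      exact h7.trans (mul_le_mul_of_nonneg_left hc0 (by positivity))
    beta_reduce
    rw [le_div_iff₀ hpos]
    nlinarith
  · intro x
    have hgV : BddR fun t => f t * V (x - t) := hfb.mul (hVb.comp fun t => x - t)
    refine ⟨div_nonneg (m.re_nonneg hgV fun t => mul_nonneg (hf t).1 (hV0 _)) hpos.le, ?_⟩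
    rw [div_le_one hpos, ← one x]
    exact m.re_mono hgV (hVb.comp fun t => x - t) fun t =>
      mul_le_of_le_one_left (hV0 _) (hf t).2
  · intro x
    have h1 := conv f hfb x
    push_cast
    rw [h1, ← grp fun ξ => coef m (fun y => (f y : ℂ)) ξ * (ξ x : ℂ), trig, Finset.sum_div]
    refine Finset.sum_congr rfl fun ξ _ => ?_
    ring

end Pool.Agent.R310.Bohr
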