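import Pool.Agent.R161.Bohr.Basic

/-!
BO-TR: continuity of the solution density in the Bohr topology (`S_tr`).
-/

set_option autoImplicit false

namespace Pool.Agent.R310.Bohr

open Finset Filter Topology
open scoped ComplexConjugate
open Pool.Agent.R161.Bohr

universe u v

/-- a character which is trivial on the kernel of a homomorphism factors through it -/
theorem fac (hS : S_chext.{u}) {G : Type u} [AddCommGroup G] {H : Type v} [AddCommGroup H]
    (Φ : H →+ G) (Θ : AddChar H Circle) (hΘ : ∀ x, Φ x = 0 → Θ x = 1) :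
    ∃ χ : AddChar G Circle, ∀ y, Θ y = χ (Φ y) := by
  have key : ∀ a b : H, Φ a = Φ b → Θ a = Θ b := by
    intro a b hab
    have h1 : Θ (a - b) = 1 := hΘ _ (by rw [map_sub, hab, sub_self])
    have h2 : Θ a = Θ (a - b) * Θ b := by
      rw [← AddChar.map_add_eq_mul, sub_add_cancel]
    rw [h2, h1, one_mul]
  let χ0 : AddChar Φ.range Circle :=
    { toFun := fun l => Θ (Classical.choose l.2)
      map_zero_eq_one' := by
        have h : Φ (Classical.choose (0 : Φ.range).2) = 0 := Classical.choose_spec (0 : Φ.range).2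
        exact hΘ _ h
      map_add_eq_mul' := by
        intro a b
        have ha : Φ (Classical.choose a.2) = a := Classical.choose_spec a.2
        have hb : Φ (Classical.choose b.2) = b := Classical.choose_spec b.2
        have hab : Φ (Classical.choose (a + b).2) = (a + b : Φ.range) :=
          Classical.choose_spec (a + b).2
        rw [← AddChar.map_add_eq_mul]
        refine key _ _ ?_
        rw [hab, map_add, ha, hb]
        rfl }
  obtain ⟨ψ, hψ⟩ := hS G Φ.range χ0
  refine ⟨ψ, fun y => ?_⟩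
  have h1 := hψ ⟨Φ y, y, rfl⟩
  rw [h1]
  have h2 : Φ (Classical.choose (⟨Φ y, y, rfl⟩ : Φ.range).2) = Φ y :=
    Classical.choose_spec (⟨Φ y, y, rfl⟩ : Φ.range).2
  exact key _ _ h2.symm

/-- product character on `G^d` -/
noncomputable def pch {G : Type u} [AddCommGroup G] {d : ℕ} (p : Fin d → AddChar G Circle) :
    AddChar (Fin d → G) Circle where
  toFun x := ∏ j, p j (x j)
  map_zero_eq_one' := by simp
  map_add_eq_mul' x y := by
    simp only [Pi.add_apply, AddChar.map_add_eq_mul, Finset.prod_mul_distrib]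

theorem pch_apply {G : Type u} [AddCommGroup G] {d : ℕ} (p : Fin d → AddChar G Circle)
    (x : Fin d → G) : (pch p x : ℂ) = ∏ j, (p j (x j) : ℂ) := by
  change ((∏ j, p j (x j) : Circle) : ℂ) = _
  exact map_prod Circle.coeHom (fun j => p j (x j)) univ

theorem s_tr (hS : S_chext.{u}) : S_tr.{u} := by
  intro d N ε hε
  set n0 : ℕ := ⌈1 / ε ^ 2⌉₊ with hn0
  refine ⟨n0 ^ d, ?_⟩
  intro G _ m hm φ M hM hC f hf
  classical
  have hfb : BddR f := BddR.of_mem hf
  have hfc : Bdd (fun x => (f x : ℂ)) := hfb.ofReal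
  have hf1 : ∀ x, ‖(f x : ℂ)‖ ≤ 1 := fun x => by
    rw [Complex.norm_real, Real.norm_of_nonneg (hf x).1]
    exact (hf x).2
  have hn2f : m.n2 (fun x => (f x : ℂ)) ≤ 1 := by
    have := m.n2_le_of hf1
    rwa [one_pow] at this
  obtain ⟨Λ, hΛ, hΛc⟩ := spec_finite hm hfc hε
  have hcard : Λ.card ≤ n0 := by
    have h1 : (Λ.card : ℝ) ≤ 1 / ε ^ 2 := by
      rw [le_div_iff₀ (by positivity)]
      linarith
    exact_mod_cast h1.trans (Nat.le_ceil _)
  set c : AddChar G Circle → ℂ := coef m (fun x => (f x : ℂ)) with hc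
  have hc1 : ∀ ξ, ‖c ξ‖ ≤ 1 := fun ξ =>
    (norm_coef_le hfc ξ).trans (m.re_le hfc.norm hf1)
  set P : G → ℂ := trig Λ c with hP
  have hPb : Bdd P := Bdd.trig _ _
  have hn2P : m.n2 P ≤ 1 := by
    rw [hP, n2_trig hm]
    exact (bessel hm hfc Λ).trans hn2f
  -- telescoping
  have tel : ∀ t : Fin d → G,
      ‖M (fun x => (1 : ℂ) * ∏ j, (f (x j + t j) : ℂ)) - M (fun x => (1 : ℂ) * ∏ j, P (x j + t j))‖ ≤
        d * (N * ε) := by
    intro t
    refine hybrid M (fun _ => 1) (Bdd.const 1) (fun j y => (f (y + t j) : ℂ))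
      (fun j y => P (y + t j)) (fun j => hfc.comp fun y => y + t j)
      (fun j => hPb.comp fun y => y + t j) (N * ε) ?_
    intro i g hg hgi
    have hgb : ∀ j, Bdd (g j) := by
      intro j
      by_cases hj : j = i
      · rw [hj, hgi]
        exact (hfc.comp fun y => y + t i).sub (hPb.comp fun y => y + t i)
      · rcases hg j hj with h | h <;> rw [h]
        · exact hfc.comp fun y => y + t j
        · exact hPb.comp fun y => y + t j
    have h1 := hC 1 g hgb i ε hε.le (fun ξ => ?_) (fun j hj => ?_)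
    · simpa using h1
    · rw [hgi, coef_translate (f := fun y => (f y : ℂ) - P y) hm (hfc.sub hPb) (t i) ξ, norm_mul,
        norm_char, one_mul, coef_sub hfc hPb, hP, coef_trig hm]
      by_cases hξ : ξ ∈ Λ
      · rw [if_pos hξ, ← hc, sub_self, norm_zero]
        exact hε.le
      · rw [if_neg hξ, sub_zero]
        have := mt (hΛ ξ).2 hξ
        exact (not_le.1 this).le
    · rcases hg j hj with h | h <;> rw [h]
      · rw [n2_translate (f := fun y => (f y : ℂ)) hm hfc (t j)]
        exact hn2f
      · rw [n2_translate hm hPb (t j)]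
        exact hn2P
  -- trigonometric polynomials
  set Φ : (Fin d → G) →+ G :=
    { toFun := fun x => ∑ j, φ j (x j)
      map_zero' := by simp
      map_add' := fun x y => by simp [Finset.sum_add_distrib] } with hΦ
  have hΦa : ∀ x, Φ x = ∑ j, φ j (x j) := fun x => rfl
  have expand : ∀ t : Fin d → G, M (fun x => (1 : ℂ) * ∏ j, P (x j + t j)) =
      ∑ p ∈ Fintype.piFinset (fun _ : Fin d => Λ), (∏ j, c (p j)) * (pch p t : ℂ) *
        M (fun x => (pch p x : ℂ)) := by
    intro t
    have e : (fun x : Fin d → G => (1 : ℂ) * ∏ j, P (x j + t j)) = fun x =>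
        ∑ p ∈ Fintype.piFinset (fun _ : Fin d => Λ), (∏ j, c (p j)) * (pch p t : ℂ) *
          (pch p x : ℂ) := by
      funext x
      rw [one_mul]
      have h1 : ∀ j, P (x j + t j) = ∑ ξ ∈ Λ, c ξ * ((ξ (x j) : ℂ) * (ξ (t j) : ℂ)) := by
        intro j
        rw [hP, trig]
        refine Finset.sum_congr rfl fun ξ _ => ?_
        rw [char_add]
      simp_rw [h1]
      rw [Finset.prod_univ_sum]
      refine Finset.sum_congr rfl fun p _ => ?_
      rw [pch_apply, pch_apply, Finset.prod_mul_distrib, Finset.prod_mul_distrib]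
      ring
    rw [e, M.map_sum _ fun p _ => (Bdd.char (pch p)).cmul _]
    refine Finset.sum_congr rfl fun p _ => ?_
    rw [M.map_cmul _ (Bdd.char (pch p))]
  have hχ : ∀ p : Fin d → AddChar G Circle, ∃ χ : AddChar G Circle,
      (∀ x, Φ x = 0 → pch p x = 1) → ∀ y, pch p y = χ (Φ y) := by
    intro p
    by_cases h : ∀ x, Φ x = 0 → pch p x = 1
    · obtain ⟨χ, hχ⟩ := fac hS Φ (pch p) h
      exact ⟨χ, fun _ => hχ⟩
    · exact ⟨1, fun h' => absurd h' h⟩
  choose χ hχ using hχ
  refine ⟨(Fintype.piFinset (fun _ : Fin d => Λ)).image χ, ?_, ?_⟩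
  · refine Finset.card_image_le.trans ?_
    rw [Fintype.card_piFinset, Finset.prod_const, Finset.card_univ, Fintype.card_fin]
    exact Nat.pow_le_pow_left hcard d
  · intro t η hη hX
    have h1 : ‖M (fun x => (1 : ℂ) * ∏ j, P (x j + t j)) -
        M (fun x => (1 : ℂ) * ∏ j, P (x j + (0 : Fin d → G) j))‖ ≤ (n0 ^ d : ℕ) * η := by
      rw [expand t, expand 0, ← Finset.sum_sub_distrib]
      have h2 : ∀ p ∈ Fintype.piFinset (fun _ : Fin d => Λ),
          ‖(∏ j, c (p j)) * (pch p t : ℂ) * M (fun x => (pch p x : ℂ)) -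
            (∏ j, c (p j)) * (pch p 0 : ℂ) * M (fun x => (pch p x : ℂ))‖ ≤ η := by
        intro p hp
        rcases hM.char (pch p) with ⟨h3, h4⟩ | ⟨_, h4⟩
        · rw [h4]
          have h5 : pch p t = χ p (Φ t) := hχ p (fun x hx => h3 x (by rw [← hΦa]; exact hx)) t
          have h6 : (pch p 0 : ℂ) = 1 := by
            rw [AddChar.map_zero_eq_one]
            rfl
          have h7 : (∏ j, c (p j)) * (pch p t : ℂ) * 1 - (∏ j, c (p j)) * (pch p 0 : ℂ) * 1 =
              (∏ j, c (p j)) * ((χ p (Φ t) : ℂ) - 1) := by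
            rw [h5, h6]
            ring
          rw [h7, norm_mul, norm_prod]
          have h8 : ∏ j, ‖c (p j)‖ ≤ 1 := Finset.prod_le_one (fun j _ => norm_nonneg _)
            (fun j _ => hc1 _)
          have h9 := hX (χ p) (Finset.mem_image_of_mem _ hp)
          rw [← hΦa] at h9
          calc (∏ j, ‖c (p j)‖) * ‖(χ p (Φ t) : ℂ) - 1‖ ≤ 1 * η :=
                mul_le_mul h8 h9 (norm_nonneg _) zero_le_one
            _ = η := one_mul η
        · rw [h4, mul_zero, mul_zero, sub_zero, norm_zero]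
          exact hη
      refine (norm_sum_le _ _).trans ((Finset.sum_le_sum h2).trans ?_)
      rw [Finset.sum_const, nsmul_eq_mul]
      refine mul_le_mul_of_nonneg_right ?_ hη
      rw [Fintype.card_piFinset, Finset.prod_const, Finset.card_univ, Fintype.card_fin]
      exact_mod_cast Nat.pow_le_pow_left hcard d
    have h2 := tel t
    have h3 := tel 0
    set A := M (fun x => (1 : ℂ) * ∏ j, (f (x j + t j) : ℂ)) with hA
    set A' := M (fun x => (1 : ℂ) * ∏ j, P (x j + t j)) with hA'
    set B := M (fun x => (1 : ℂ) * ∏ j, (f (x j + (0 : Fin d → G) j) : ℂ)) with hB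
    set B' := M (fun x => (1 : ℂ) * ∏ j, P (x j + (0 : Fin d → G) j)) with hB'
    have h4 : ‖B - A‖ ≤ 2 * d * N * ε + (n0 ^ d : ℕ) * η := by
      have e : B - A = (B - B') - (A' - B') - (A - A') := by ring
      rw [e]
      have := norm_sub_le ((B - B') - (A' - B')) (A - A')
      have := norm_sub_le (B - B') (A' - B')
      linarith
    have h5 : M.re (fun x => ∏ j, f (x j)) = B.re := by
      rw [hB, St.re]
      congr 2
      funext x
      simp
    have h6 : M.re (fun x => ∏ j, f (x j + t j)) = A.re := by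
      rw [hA, St.re]
      congr 2
      funext x
      simp
    rw [h5, h6]
    have h7 := Complex.re_le_norm (B - A)
    rw [Complex.sub_re] at h7
    linarith

end Pool.Agent.R310.Bohr
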